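import Pool.Agent.H61.FM.Targets

/-!
# The row TWS: sums over the vectors of a product of ideals are sums over the ideals of a class
-/

set_option autoImplicit false

open MeasureTheory Set Filter NumberField
open scoped Real nonZeroDivisors

namespace Pool.Agent.H16.FM

open Pool.Agent.H31.CN Pool.Agent.H89.FM Pool.Agent.H61.FM

open Classical in
/-- sums over a set and sums over its image under a map all of whose fibres have `w` elements -/
theorem hasSum_fib {κ ι : Type*} (A : Set κ) (B : Set ι) (j : κ → ι) (w : ℕ) (hw : 0 < w)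
    (hj : ∀ v ∈ A, j v ∈ B) (hfib : ∀ J ∈ B, {v | v ∈ A ∧ j v = J}.ncard = w)
    (g : κ → ℂ) (f : ι → ℂ) (hgf : ∀ v ∈ A, g v = f (j v)) (a : ℂ)
    (h : HasSum (fun v => if v ∈ A then g v else 0) a) :
    HasSum (fun J => if J ∈ B then f J else 0) (a / w) := by
  have hV : HasSum (fun v : A => g v) a := by
    have h4 := (hasSum_subtype_iff_indicator (f := g) (s := A) (a := a)).mpr (by
      refine h.congr_fun ?_
      intro v
      by_cases hv : v ∈ A
      · simp [hv]
      · simp [hv])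
    exact h4
  set β : A → B := fun v => ⟨j v, hj v v.2⟩ with hβ
  have hS := (Equiv.sigmaFiberEquiv β).hasSum_iff.mpr hV
  have hF : ∀ J : B, HasSum (fun v : {v : A // β v = J} => g v.1.1) (w * f J) := by
    intro J
    have hc := hfib J.1 J.2
    have hfin : {v | v ∈ A ∧ j v = J.1}.Finite := Set.finite_of_ncard_pos (by rw [hc]; exact hw)
    let e : {v : A // β v = J} ≃ {v | v ∈ A ∧ j v = J.1} :=
      { toFun := fun v => ⟨v.1.1, v.1.2, congrArg Subtype.val v.2⟩
        invFun := fun v => ⟨⟨v.1, v.2.1⟩, Subtype.ext v.2.2⟩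
        left_inv := fun v => rfl
        right_inv := fun v => rfl }
    have hfin' : Finite {v : A // β v = J} := by
      have := hfin.to_subtype
      exact Finite.of_equiv _ e.symm
    have hft : Fintype {v : A // β v = J} := Fintype.ofFinite _
    have h1 : (fun v : {v : A // β v = J} => g v.1.1) = fun _ => f J := by
      funext v
      rw [hgf v.1.1 v.1.2]
      exact congrArg f (congrArg Subtype.val v.2)
    rw [h1]
    have h2 := hasSum_fintype (fun _ : {v : A // β v = J} => f J)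
    have h3 : ∑ _v : {v : A // β v = J}, f J = w * f J := by
      rw [Finset.sum_const, Finset.card_univ, nsmul_eq_mul]
      congr 2
      rw [← Nat.card_eq_fintype_card, Nat.card_congr e, Nat.card_coe_set_eq, hc]
    rw [h3] at h2
    exact h2
  have hT : HasSum (fun J : B => (w : ℂ) * f J) a := hS.sigma hF
  have hw' : (w : ℂ) ≠ 0 := Nat.cast_ne_zero.mpr hw.ne'
  have hU : HasSum (fun J : B => f J) (a / w) := by
    have h5 := hT.div_const (w : ℂ)
    refine h5.congr_fun ?_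
    intro J
    rw [mul_comm, mul_div_assoc, div_self hw', mul_one]
  have h6 := (hasSum_subtype_iff_indicator (f := f) (s := B) (a := a / w)).mp hU
  refine h6.congr_fun ?_
  intro J
  by_cases hJ : J ∈ B
  · simp [hJ]
  · simp [hJ]

theorem pf_TWS (hVIG : T_VIG) : T_TWS := by
  classical
  intro K _ _ D σ hIQ I P α β Q hOB f a h
  obtain ⟨hun, b, hb1, hb2, hb3, hb4⟩ := hVIG K D σ hIQ I α β Q hOB
  set A : Set (ℤ × ℤ) := {v | v ∈ lt K α β ((P : Ideal (𝓞 K)) * I) ∧ v ≠ 0} with hA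
  set B : Set (Ideal (𝓞 K))⁰ :=
    {J | ClassGroup.mk0 J = (ClassGroup.mk0 I * ClassGroup.mk0 P)⁻¹} with hB
  have hI0 : (I : Ideal (𝓞 K)) ≠ 0 := nonZeroDivisors.coe_ne_zero I
  have hP0 : (P : Ideal (𝓞 K)) ≠ 0 := nonZeroDivisors.coe_ne_zero P
  -- membership
  have hmem : ∀ v : ℤ × ℤ, v ≠ 0 → (v ∈ lt K α β ((P : Ideal (𝓞 K)) * I) ↔
      (P : Ideal (𝓞 K)) ∣ (b v : Ideal (𝓞 K))) := by
    intro v hv
    have h1 : v ∈ lt K α β ((P : Ideal (𝓞 K)) * I) ↔
        (v.1 : 𝓞 K) * α + (v.2 : 𝓞 K) * β ∈ (P : Ideal (𝓞 K)) * I := Iff.rfl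
    rw [h1, ← Ideal.dvd_span_singleton, hb1 v hv, mul_dvd_mul_iff_right hI0]
  have hex : ∀ v : ℤ × ℤ, ∃ J : (Ideal (𝓞 K))⁰, v ∈ A → b v = P * J := by
    intro v
    by_cases hv : v ∈ A
    · obtain ⟨J, hJ⟩ := (hmem v hv.2).mp hv.1
      have hJ0 : J ≠ 0 := by
        rintro rfl
        rw [mul_zero] at hJ
        exact nonZeroDivisors.coe_ne_zero (b v) hJ
      refine ⟨⟨J, mem_nonZeroDivisors_of_ne_zero hJ0⟩, fun _ => Subtype.ext hJ⟩
    · exact ⟨1, fun h => absurd h hv⟩
  choose j hj using hex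
  have hcl : ∀ J : (Ideal (𝓞 K))⁰, J ∈ B ↔ ClassGroup.mk0 (P * J) = (ClassGroup.mk0 I)⁻¹ := by
    intro J
    rw [hB, Set.mem_ofPred_eq, map_mul, mul_inv, ← eq_inv_mul_iff_mul_eq, mul_comm]
  have hjB : ∀ v ∈ A, j v ∈ B := by
    intro v hv
    rw [hcl, ← hj v hv]
    exact (hb2 v hv.2).1
  have hfib : ∀ J ∈ B, {v | v ∈ A ∧ j v = J}.ncard = un K := by
    intro J hJ
    obtain ⟨v, hv, hbv⟩ := hb3 (P * J) ((hcl J).mp hJ)
    rw [← hb4 v hv]
    congr 1
    ext v'
    constructor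
    · rintro ⟨hv', hjv'⟩
      refine ⟨hv'.2, ?_⟩
      rw [hj v' hv', hjv', hbv]
    · rintro ⟨hv', hbv'⟩
      have h2 : b v' = P * J := hbv'.trans hbv
      have h3 : v' ∈ A := by
        refine ⟨(hmem v' hv').mpr ?_, hv'⟩
        rw [h2]
        exact ⟨J, rfl⟩
      refine ⟨h3, ?_⟩
      have h4 := (hj v' h3).symm.trans h2
      have h5 : (P : Ideal (𝓞 K)) * (j v' : Ideal (𝓞 K)) = P * (J : Ideal (𝓞 K)) :=
        congrArg Subtype.val h4
      exact Subtype.ext (mul_left_cancel₀ hP0 h5)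
  have hnm : ∀ J J' : (Ideal (𝓞 K))⁰, nm (J * J') = nm J * nm J' := by
    intro J J'
    unfold nm
    rw [Submonoid.coe_mul, map_mul]
  have hnP : 0 < nm P := by
    unfold nm
    rw [Nat.pos_iff_ne_zero, Ne, Ideal.absNorm_eq_zero_iff]
    exact hP0
  have hgf : ∀ v ∈ A, (fun v : ℤ × ℤ => f ((val Q v : ℝ) / nm P)) v =
      (fun J : (Ideal (𝓞 K))⁰ => f (nm J)) (j v) := by
    intro v hv
    change f ((val Q v : ℝ) / nm P) = f (nm (j v))
    congr 1
    have h2 := (hb2 v hv.2).2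
    rw [hj v hv, hnm] at h2
    have h3 : (val Q v : ℝ) = (nm P : ℝ) * nm (j v) := by
      rw [← h2]
      push_cast
      ring
    rw [h3, mul_comm, mul_div_assoc, div_self (Nat.cast_ne_zero.mpr hnP.ne'), mul_one]
  have hfin := hasSum_fib A B j (un K) hun hjB hfib (fun v => f ((val Q v : ℝ) / nm P))
    (fun J => f (nm J)) hgf a (h.congr_fun (by
      intro v
      by_cases hv : v ∈ A
      · rw [if_pos hv]
        exact (if_pos hv).symm
      · rw [if_neg hv]
        exact (if_neg hv).symm))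
  refine hfin.congr_fun ?_
  intro J
  by_cases hJ : J ∈ B
  · rw [if_pos hJ]
    exact (if_pos hJ)
  · rw [if_neg hJ]
    exact (if_neg hJ)

end Pool.Agent.H16.FM
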